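import Mathlib
import Pool.Agent.Helper104.HairyBall

set_option autoImplicit false

namespace Pool.Agent.Results.MP_aa4be7_al.HairyRow

open Matrix Metric

/-- The Laurent polynomial ring `R[X_0^{±1}, ..., X_{m-1}^{±1}]`, as the group algebra of `ℤ^m`. -/
abbrev Laurent (R : Type) [CommRing R] (m : ℕ) : Type := AddMonoidAlgebra R (Fin m → ℤ)

/-- The part of total degree `k` of a Laurent polynomial (all variables have degree one). -/
noncomputable def component {R : Type} [CommRing R] {m : ℕ} (k : ℤ) (f : Laurent R m) :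
    Laurent R m :=
  AddMonoidAlgebra.ofCoeff (f.coeff.filter fun a => ∑ i, a i = k)

/-- A graded `R`-subalgebra: it contains all homogeneous parts of its elements, that is
`A = ⊕ (A ∩ L_k)`. -/
def IsGradedSub {R : Type} [CommRing R] {m : ℕ} (A : Subalgebra R (Laurent R m)) : Prop :=
  ∀ f ∈ A, ∀ k : ℤ, component k f ∈ A

/-- Unimodular rows. -/
def Unimodular {A : Type} [CommRing A] {n : ℕ} (v : Fin n → A) : Prop :=
  ∃ w : Fin n → A, ∑ i, v i * w i = 1

/-! ### homogeneous elements -/

section homog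

variable {R : Type} [CommRing R] {m : ℕ}

/-- homogeneous of degree `k` -/
def IsHom (k : ℤ) (f : Laurent R m) : Prop := ∀ a, (∑ i, a i) ≠ k → f.coeff a = 0

lemma component_of_isHom {k : ℤ} {f : Laurent R m} (hf : IsHom k f) : component k f = f := by
  apply AddMonoidAlgebra.ext
  ext a
  simp only [component, AddMonoidAlgebra.coeff_ofCoeff]
  by_cases h : ∑ i, a i = k
  · rw [Finsupp.filter_apply, if_pos h]
  · rw [Finsupp.filter_apply, if_neg h, hf a h]

lemma component_of_isHom_ne {j k : ℤ} {f : Laurent R m} (hf : IsHom k f) (hjk : j ≠ k) :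
    component j f = 0 := by
  apply AddMonoidAlgebra.ext
  ext a
  simp only [component, AddMonoidAlgebra.coeff_ofCoeff]
  by_cases h : ∑ i, a i = j
  · rw [Finsupp.filter_apply, if_pos h, hf a (by rw [h]; exact hjk)]
    simp
  · rw [Finsupp.filter_apply, if_neg h]
    simp

lemma component_add (k : ℤ) (f g : Laurent R m) :
    component k (f + g) = component k f + component k g := by
  apply AddMonoidAlgebra.ext
  simp [component, Finsupp.filter_add]

lemma component_smul (k : ℤ) (c : R) (f : Laurent R m) :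
    component k (c • f) = c • component k f := by
  apply AddMonoidAlgebra.ext
  simp [component, Finsupp.filter_smul]

lemma isHom_single (a : Fin m → ℤ) (c : R) : IsHom (∑ i, a i) (AddMonoidAlgebra.single a c) := by
  intro b hb
  rw [AddMonoidAlgebra.coeff_single, Finsupp.single_apply, if_neg]
  rintro rfl
  exact hb rfl

lemma isHom_sub {k : ℤ} {f g : Laurent R m} (hf : IsHom k f) (hg : IsHom k g) :
    IsHom k (f - g) := by
  intro a ha
  have h1 := hf a ha
  have h2 := hg a ha
  simp [h1, h2]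

lemma isHom_mul {k l : ℤ} {f g : Laurent R m} (hf : IsHom k f) (hg : IsHom l g) :
    IsHom (k + l) (f * g) := by
  classical
  intro a ha
  by_contra hne
  have hmem : a ∈ (f * g).coeff.support := Finsupp.mem_support_iff.2 hne
  have h1 := AddMonoidAlgebra.support_coeff_mul_subset f g hmem
  obtain ⟨b, hb, c, hc, hbc⟩ := Finset.mem_add.1 h1
  have hb' : ∑ i, b i = k := by
    by_contra h
    exact Finsupp.mem_support_iff.1 hb (hf b h)
  have hc' : ∑ i, c i = l := by
    by_contra h
    exact Finsupp.mem_support_iff.1 hc (hg c h)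
  apply ha
  rw [← hbc, ← hb', ← hc', ← Finset.sum_add_distrib]
  rfl

/-- an algebra generated by homogeneous elements is graded -/
lemma isGradedSub_adjoin {S : Set (Laurent R m)} (hS : ∀ s ∈ S, ∃ k, IsHom k s) :
    IsGradedSub (Algebra.adjoin R S) := by
  have hcl : ∀ x ∈ Submonoid.closure S, ∃ k, IsHom k x := by
    intro x hx
    induction hx using Submonoid.closure_induction with
    | mem x hx => exact hS x hx
    | one =>
      refine ⟨0, ?_⟩
      have := isHom_single (R := R) (0 : Fin m → ℤ) 1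
      simpa [AddMonoidAlgebra.one_def] using this
    | mul x y _ _ hx hy =>
      obtain ⟨k, hk⟩ := hx
      obtain ⟨l, hl⟩ := hy
      exact ⟨k + l, isHom_mul hk hl⟩
  intro f hf k
  have hf' : f ∈ Submodule.span R (Submonoid.closure S : Set (Laurent R m)) := by
    rw [← Algebra.adjoin_eq_span]
    exact hf
  induction hf' using Submodule.span_induction with
  | mem x hx =>
    obtain ⟨l, hl⟩ := hcl x hx
    by_cases h : k = l
    · subst h
      rw [component_of_isHom hl]
      exact hf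
    · rw [component_of_isHom_ne hl h]
      exact zero_mem _
  | zero =>
    have : component k (0 : Laurent R m) = 0 := by
      apply AddMonoidAlgebra.ext
      ext a
      simp [component, Finsupp.filter_apply]
    rw [this]
    exact zero_mem _
  | add x y hx hy ihx ihy =>
    rw [component_add]
    have hx' : x ∈ Algebra.adjoin R S := by
      rw [← Subalgebra.mem_toSubmodule, Algebra.adjoin_eq_span]; exact hx
    have hy' : y ∈ Algebra.adjoin R S := by
      rw [← Subalgebra.mem_toSubmodule, Algebra.adjoin_eq_span]; exact hy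
    exact add_mem (ihx hx') (ihy hy')
  | smul c x hx ihx =>
    rw [component_smul]
    have hx' : x ∈ Algebra.adjoin R S := by
      rw [← Subalgebra.mem_toSubmodule, Algebra.adjoin_eq_span]; exact hx
    exact Subalgebra.smul_mem _ (ihx hx') c

end homog

/-! ### the algebra -/

/-- The Laurent monomial with exponent vector `a`. -/
noncomputable def mon (a : Fin 6 → ℤ) : Laurent ℝ 6 := AddMonoidAlgebra.single a 1

/-- The eight homogeneous generators
`X_0, X_1, X_2, X_3, X_4, X_5, (X_0 ^ 2 - X_1 X_4 - X_2 X_5) X_3⁻¹, X_0⁻¹`. -/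
noncomputable def gen : Fin 8 → Laurent ℝ 6 :=
  ![mon ![1, 0, 0, 0, 0, 0], mon ![0, 1, 0, 0, 0, 0], mon ![0, 0, 1, 0, 0, 0],
    mon ![0, 0, 0, 1, 0, 0], mon ![0, 0, 0, 0, 1, 0], mon ![0, 0, 0, 0, 0, 1],
    mon ![2, 0, 0, -1, 0, 0] - mon ![0, 1, 0, -1, 1, 0] - mon ![0, 0, 1, -1, 0, 1],
    mon ![-1, 0, 0, 0, 0, 0]]

lemma gen_isHom (i : Fin 8) : ∃ k, IsHom k (gen i) := by
  have h : ∀ a : Fin 6 → ℤ, IsHom (∑ i, a i) (mon a) := fun a => isHom_single a 1
  fin_cases i
  · exact ⟨_, h _⟩
  · exact ⟨_, h _⟩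
  · exact ⟨_, h _⟩
  · exact ⟨_, h _⟩
  · exact ⟨_, h _⟩
  · exact ⟨_, h _⟩
  · refine ⟨1, isHom_sub (isHom_sub ?_ ?_) ?_⟩
    · have := h ![2, 0, 0, -1, 0, 0]
      simpa [Fin.sum_univ_succ] using this
    · have := h ![0, 1, 0, -1, 1, 0]
      simpa [Fin.sum_univ_succ] using this
    · have := h ![0, 0, 1, -1, 0, 1]
      simpa [Fin.sum_univ_succ] using this
  · exact ⟨_, h _⟩

lemma mon_mul (a b : Fin 6 → ℤ) : mon a * mon b = mon (a + b) := by
  simp [mon, AddMonoidAlgebra.single_mul_single]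

/-- the relation `X_1 Y_1 + X_2 Y_2 + X_3 Y_3 = X_0 ^ 2` -/
lemma gen_rel : gen 1 * (gen 4 * gen 7 ^ 2) + gen 2 * (gen 5 * gen 7 ^ 2) +
    gen 3 * (gen 6 * gen 7 ^ 2) = 1 := by
  have h1 : (1 : Laurent ℝ 6) = mon 0 := rfl
  simp only [gen, h1, pow_two]
  simp [mon_mul, mul_sub, sub_mul]
  congr 1
  ext i
  fin_cases i <;> rfl

/-- The presentation. -/
noncomputable def pres : MvPolynomial (Fin 8) ℝ →ₐ[ℝ] Laurent ℝ 6 := MvPolynomial.aeval gen

/-- The algebra `A`. -/
noncomputable def A : Subalgebra ℝ (Laurent ℝ 6) := Algebra.adjoin ℝ (Set.range gen)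

lemma A_eq : A = pres.range := Algebra.adjoin_range_eq_range_aeval ℝ gen

lemma gen_mem (i : Fin 8) : gen i ∈ A := Algebra.subset_adjoin ⟨i, rfl⟩

/-- a polynomial lift of an element of `A` -/
lemma exists_lift (a : A) : ∃ P : MvPolynomial (Fin 8) ℝ, pres P = (a : Laurent ℝ 6) := by
  have h : (a : Laurent ℝ 6) ∈ pres.range := by
    rw [← A_eq]
    exact a.2
  exact h

/-! ### evaluation -/

/-- the length of a vector in `ℝ^3` -/
noncomputable def len (q : Fin 3 → ℝ) : ℝ := Real.sqrt (q 0 ^ 2 + q 1 ^ 2 + q 2 ^ 2)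

lemma len_sq (q : Fin 3 → ℝ) : len q ^ 2 = q 0 ^ 2 + q 1 ^ 2 + q 2 ^ 2 :=
  Real.sq_sqrt (by positivity)

lemma continuous_len : Continuous len := by
  unfold len
  fun_prop

/-- the evaluation point attached to `q` -/
noncomputable def pnt (q : Fin 3 → ℝ) : Fin 8 → ℝ :=
  ![len q, q 0, q 1, q 2, q 0, q 1, q 2, (len q)⁻¹]

/-- the units at which the Laurent polynomials are evaluated -/
noncomputable def uni (q : Fin 3 → ℝ) : Fin 6 → ℝ := ![len q, q 0, q 1, q 2, q 0, q 1]

/-- evaluation of Laurent polynomials at a point with nonzero coordinates -/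
noncomputable def evL (u : Fin 6 → ℝ) (hu : ∀ i, u i ≠ 0) : Laurent ℝ 6 →ₐ[ℝ] ℝ :=
  AddMonoidAlgebra.lift ℝ ℝ (Fin 6 → ℤ)
    { toFun := fun a => ∏ i, u i ^ (Multiplicative.toAdd a i)
      map_one' := by simp
      map_mul' := fun a b => by
        rw [← Finset.prod_mul_distrib]
        refine Finset.prod_congr rfl fun i _ => ?_
        rw [toAdd_mul, Pi.add_apply, zpow_add₀ (hu i)] }

lemma evL_mon (u : Fin 6 → ℝ) (hu : ∀ i, u i ≠ 0) (a : Fin 6 → ℤ) :
    evL u hu (mon a) = ∏ i, u i ^ a i := by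
  simp [evL, mon]

lemma len_ne {q : Fin 3 → ℝ} (hq : ∃ i, q i ≠ 0) : len q ≠ 0 := by
  intro h
  have h1 := len_sq q
  rw [h] at h1
  obtain ⟨i, hi⟩ := hq
  have h0 : q 0 ^ 2 + q 1 ^ 2 + q 2 ^ 2 = 0 := by rw [← h1]; norm_num
  apply hi
  fin_cases i
  · show q 0 = 0
    nlinarith [sq_nonneg (q 0), sq_nonneg (q 1), sq_nonneg (q 2)]
  · show q 1 = 0
    nlinarith [sq_nonneg (q 0), sq_nonneg (q 1), sq_nonneg (q 2)]
  · show q 2 = 0
    nlinarith [sq_nonneg (q 0), sq_nonneg (q 1), sq_nonneg (q 2)]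

lemma uni_ne {q : Fin 3 → ℝ} (hq : ∀ i, q i ≠ 0) (i : Fin 6) : uni q i ≠ 0 := by
  fin_cases i
  · exact len_ne ⟨0, hq 0⟩
  · exact hq 0
  · exact hq 1
  · exact hq 2
  · exact hq 0
  · exact hq 1

lemma evL_gen {q : Fin 3 → ℝ} (hq : ∀ i, q i ≠ 0) (i : Fin 8) :
    evL (uni q) (uni_ne hq) (gen i) = pnt q i := by
  have hl := len_sq q
  have hl0 : len q ≠ 0 := len_ne ⟨0, hq 0⟩
  fin_cases i
  · simp [gen, evL_mon, pnt, uni, Fin.prod_univ_succ]
  · simp [gen, evL_mon, pnt, uni, Fin.prod_univ_succ]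
  · simp [gen, evL_mon, pnt, uni, Fin.prod_univ_succ]
  · simp [gen, evL_mon, pnt, uni, Fin.prod_univ_succ]
  · simp [gen, evL_mon, pnt, uni, Fin.prod_univ_succ]
  · simp [gen, evL_mon, pnt, uni, Fin.prod_univ_succ]
  · have h2 := hq 2
    simp [gen, evL_mon, pnt, uni, Fin.prod_univ_succ]
    rw [hl]
    field_simp
    ring
  · simp [gen, evL_mon, pnt, uni, Fin.prod_univ_succ]

lemma eval_eq_of_ne {q : Fin 3 → ℝ} (hq : ∀ i, q i ≠ 0) (P : MvPolynomial (Fin 8) ℝ) :
    MvPolynomial.eval (pnt q) P = evL (uni q) (uni_ne hq) (pres P) := by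
  have h : (evL (uni q) (uni_ne hq)).comp pres = MvPolynomial.aeval (pnt q) := by
    apply MvPolynomial.algHom_ext
    intro i
    simp only [pres, AlgHom.comp_apply, MvPolynomial.aeval_X]
    exact evL_gen hq i
  rw [← AlgHom.comp_apply, h]
  rfl

lemma continuousAt_eval (P : MvPolynomial (Fin 8) ℝ) {q : Fin 3 → ℝ} (hq : ∃ i, q i ≠ 0) :
    ContinuousAt (fun q => MvPolynomial.eval (pnt q) P) q := by
  have h1 : Continuous fun x : Fin 8 → ℝ => MvPolynomial.eval x P := P.continuous_eval
  refine ContinuousAt.comp (f := pnt) (g := fun x : Fin 8 → ℝ => MvPolynomial.eval x P)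
    h1.continuousAt ?_
  rw [continuousAt_pi]
  intro i
  have hl : ContinuousAt len q := continuous_len.continuousAt
  have hli : ContinuousAt (fun q => (len q)⁻¹) q := hl.inv₀ (len_ne hq)
  have hc : ∀ j : Fin 3, ContinuousAt (fun q : Fin 3 → ℝ => q j) q := fun j =>
    (continuous_apply j).continuousAt
  fin_cases i
  · exact hl
  · exact hc 0
  · exact hc 1
  · exact hc 2
  · exact hc 0
  · exact hc 1
  · exact hc 2
  · exact hli

lemma dense_ne : Dense {q : Fin 3 → ℝ | ∀ i, q i ≠ 0} := by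
  have h := dense_pi (Set.univ : Set (Fin 3)) (s := fun _ => ({0}ᶜ : Set ℝ))
    (fun i _ => dense_compl_singleton 0)
  convert h using 1
  ext q
  simp

/-- the key point: relations between the generators hold at all nonzero points -/
lemma eval_eq_zero {P : MvPolynomial (Fin 8) ℝ} (hP : pres P = 0) {q : Fin 3 → ℝ}
    (hq : ∃ i, q i ≠ 0) : MvPolynomial.eval (pnt q) P = 0 := by
  have hmem : q ∈ closure {q : Fin 3 → ℝ | ∀ i, q i ≠ 0} := dense_ne q
  have hne := mem_closure_iff_nhdsWithin_neBot.1 hmem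
  have h1 : Filter.Tendsto (fun q => MvPolynomial.eval (pnt q) P)
      (nhdsWithin q {q : Fin 3 → ℝ | ∀ i, q i ≠ 0}) (nhds (MvPolynomial.eval (pnt q) P)) :=
    (continuousAt_eval P hq).tendsto.mono_left nhdsWithin_le_nhds
  have h2 : Filter.Tendsto (fun q => MvPolynomial.eval (pnt q) P)
      (nhdsWithin q {q : Fin 3 → ℝ | ∀ i, q i ≠ 0}) (nhds 0) := by
    apply Filter.Tendsto.congr' _ tendsto_const_nhds
    filter_upwards [self_mem_nhdsWithin] with x hx
    rw [eval_eq_of_ne hx, hP, map_zero]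
  exact tendsto_nhds_unique h1 h2

/-- chosen polynomial lifts -/
noncomputable def lift (a : A) : MvPolynomial (Fin 8) ℝ := (exists_lift a).choose

lemma pres_lift (a : A) : pres (lift a) = (a : Laurent ℝ 6) := (exists_lift a).choose_spec

/-- evaluation of elements of `A` at a nonzero point -/
noncomputable def ev (q : Fin 3 → ℝ) (a : A) : ℝ := MvPolynomial.eval (pnt q) (lift a)

lemma ev_eq {q : Fin 3 → ℝ} (hq : ∃ i, q i ≠ 0) (a : A) (P : MvPolynomial (Fin 8) ℝ)
    (hP : pres P = (a : Laurent ℝ 6)) : ev q a = MvPolynomial.eval (pnt q) P := by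
  have h : pres (lift a - P) = 0 := by rw [map_sub, pres_lift, hP, sub_self]
  have h1 := eval_eq_zero h hq
  rw [map_sub] at h1
  exact sub_eq_zero.1 h1

/-- evaluation is a ring homomorphism -/
noncomputable def evHom (q : Fin 3 → ℝ) (hq : ∃ i, q i ≠ 0) : A →+* ℝ where
  toFun := ev q
  map_one' := by rw [ev_eq hq 1 1 (by simp)]; simp
  map_mul' a b := by
    rw [ev_eq hq (a * b) (lift a * lift b) (by rw [map_mul, pres_lift, pres_lift]; rfl), map_mul]
    rfl
  map_zero' := by rw [ev_eq hq 0 0 (by simp)]; simp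
  map_add' a b := by
    rw [ev_eq hq (a + b) (lift a + lift b) (by rw [map_add, pres_lift, pres_lift]; rfl), map_add]
    rfl

/-- The row `(X_1, X_2, X_3)`. -/
noncomputable def row : Fin 3 → A :=
  ![⟨gen 1, gen_mem 1⟩, ⟨gen 2, gen_mem 2⟩, ⟨gen 3, gen_mem 3⟩]

lemma ev_row {q : Fin 3 → ℝ} (hq : ∃ i, q i ≠ 0) (j : Fin 3) : ev q (row j) = q j := by
  fin_cases j
  · rw [ev_eq hq _ (MvPolynomial.X 1) (by simp [pres, row])]
    simp [pnt]
  · rw [ev_eq hq _ (MvPolynomial.X 2) (by simp [pres, row])]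
    simp [pnt]
  · rw [ev_eq hq _ (MvPolynomial.X 3) (by simp [pres, row])]
    simp [pnt]

lemma row_unimodular : Unimodular row := by
  refine ⟨![⟨gen 4, gen_mem 4⟩ * ⟨gen 7, gen_mem 7⟩ ^ 2, ⟨gen 5, gen_mem 5⟩ * ⟨gen 7, gen_mem 7⟩ ^ 2,
    ⟨gen 6, gen_mem 6⟩ * ⟨gen 7, gen_mem 7⟩ ^ 2], ?_⟩
  apply Subtype.ext
  rw [Fin.sum_univ_three]
  exact gen_rel

open Pool.Agent.Helper775.Hairy in
/-- The row `(X_1, X_2, X_3)` is not the first row of an invertible matrix. -/
theorem row_not_completable (g : GL (Fin 3) A) : (g : Matrix (Fin 3) (Fin 3) A) 0 ≠ row := by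
  intro hg
  have hx : ∀ x : sphere (0 : E3) 1, ∃ i, (x : E3) i ≠ 0 := by
    intro x
    by_contra h
    push Not at h
    have h1 : (x : E3) = 0 := by
      ext i
      exact h i
    have h2 := x.2
    rw [mem_sphere_zero_iff_norm, h1, norm_zero] at h2
    exact zero_ne_one h2
  have hxs : ∀ x : sphere (0 : E3) 1, (x : E3) 0 * (x : E3) 0 + (x : E3) 1 * (x : E3) 1 +
      (x : E3) 2 * (x : E3) 2 = 1 := by
    intro x
    have h2 := x.2
    rw [mem_sphere_zero_iff_norm, EuclideanSpace.norm_eq, Real.sqrt_eq_one,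
      Fin.sum_univ_three] at h2
    simp only [Real.norm_eq_abs, sq_abs] at h2
    linarith
  -- the second row, as a function on the sphere
  let s : sphere (0 : E3) 1 → Fin 3 → ℝ := fun x j => ev (fun i => (x : E3) i) (g.1 1 j)
  let c : sphere (0 : E3) 1 → ℝ := fun x => ∑ j, s x j * (x : E3) j
  let G : sphere (0 : E3) 1 → E3 := fun x => WithLp.toLp 2 (fun j => s x j - c x * (x : E3) j)
  have hcoord : ∀ j, Continuous fun x : sphere (0 : E3) 1 => (x : E3) j := by
    intro j
    fun_prop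
  have hs : ∀ j, Continuous fun x => s x j := by
    intro j
    rw [continuous_iff_continuousAt]
    intro x
    have h1 := continuousAt_eval (lift (g.1 1 j)) (q := fun i => (x : E3) i) (hx x)
    have h2 : Continuous fun x : sphere (0 : E3) 1 => (fun i => (x : E3) i : Fin 3 → ℝ) :=
      continuous_pi hcoord
    exact ContinuousAt.comp (f := fun x : sphere (0 : E3) 1 => (fun i => (x : E3) i : Fin 3 → ℝ))
      h1 h2.continuousAt
  have hc : Continuous c := by
    apply continuous_finsetSum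
    intro j _
    exact (hs j).mul (hcoord j)
  have hG : Continuous G := by
    apply (PiLp.continuous_toLp 2 _).comp
    apply continuous_pi
    intro j
    exact (hs j).sub (hc.mul (hcoord j))
  refine hairy G hG ?_ ?_
  · intro x h0
    have h1 : ∀ j, s x j = c x * (x : E3) j := by
      intro j
      have h2 : G x j = 0 := by rw [h0]; rfl
      have h3 : s x j - c x * (x : E3) j = 0 := h2
      linarith
    let φ := evHom (fun i => (x : E3) i) (hx x)
    have hr : ∀ j, φ (g.1 0 j) = (x : E3) j := by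
      intro j
      have : g.1 0 j = row j := congrFun hg j
      rw [this]
      exact ev_row (hx x) j
    have hmul : g.1 * (g⁻¹).1 = 1 := by
      rw [← Units.val_mul, mul_inv_cancel]
      rfl
    have h01 : ∑ j, g.1 0 j * (g⁻¹).1 j 1 = 0 := by
      rw [← Matrix.mul_apply, hmul]
      rfl
    have h11 : ∑ j, g.1 1 j * (g⁻¹).1 j 1 = 1 := by
      rw [← Matrix.mul_apply, hmul]
      rfl
    have e0 := congrArg φ h01
    have e1 := congrArg φ h11
    rw [map_sum, map_zero] at e0
    rw [map_sum, map_one] at e1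
    simp only [map_mul] at e0 e1
    have e2 : ∑ j, φ (g.1 1 j) * φ ((g⁻¹).1 j 1) = c x * ∑ j, φ (g.1 0 j) * φ ((g⁻¹).1 j 1) := by
      rw [Finset.mul_sum]
      refine Finset.sum_congr rfl fun j _ => ?_
      have : φ (g.1 1 j) = c x * (x : E3) j := h1 j
      rw [this, hr]
      ring
    rw [e1, e0] at e2
    simp at e2
  · intro x
    rw [PiLp.inner_apply, Fin.sum_univ_three]
    have h1 : ∀ j, G x j = s x j - c x * (x : E3) j := fun j => rfl
    simp only [h1, RCLike.inner_apply, conj_trivial]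
    have h2 : c x = s x 0 * (x : E3) 0 + s x 1 * (x : E3) 1 + s x 2 * (x : E3) 2 :=
      Fin.sum_univ_three _
    have h3 := hxs x
    linear_combination -(c x) * h3 - h2

/-- **Main result.** Over `R = ℝ` (Noetherian of Krull dimension `d = 0`) there are a finitely
generated graded subalgebra `A` of the Laurent polynomial ring in six variables of degree one and
a unimodular row of length `3 = max (d + 2) 3` over `A` which is not the first row of any
invertible matrix, in particular not of any product of elementary matrices. -/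
theorem result :
    IsNoetherianRing ℝ ∧ ringKrullDim ℝ = 0 ∧
    ∃ A : Subalgebra ℝ (Laurent ℝ 6), IsGradedSub A ∧ A.FG ∧
      ∃ v : Fin 3 → A, Unimodular v ∧
        ∀ g : GL (Fin 3) A, (g : Matrix (Fin 3) (Fin 3) A) 0 ≠ v := by
  refine ⟨inferInstance, ringKrullDim_eq_zero_of_field ℝ, A, ?_, ?_, row, row_unimodular,
    row_not_completable⟩
  · apply isGradedSub_adjoin
    rintro _ ⟨i, rfl⟩
    exact gen_isHom i
  · exact ⟨(Set.finite_range gen).toFinset, by simp [A]⟩

end Pool.Agent.Results.MP_aa4be7_al.HairyRow
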